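import Pool.Agent.R532.Wc2

/-!
# Counting the integer parts of sums of fewer than `k` `k`-th powers with generic real coefficients
-/

set_option autoImplicit false

namespace Pool.Agent.Results.MP_4e3e45_nt.GenericFewTerms

open MeasureTheory Filter

theorem result (k s : ℕ) (hs : 1 ≤ s) (hsk : s < k) :
    ∀ᵐ l : Fin s → ℝ, (∀ i, 0 < l i) → ∃ κ : ℝ, 0 < κ ∧ ∀ᶠ Y : ℝ in atTop,
      κ * Y ^ ((s : ℝ) / k) ≤ (({n : ℕ | 0 < n ∧ (n : ℝ) ≤ Y ∧ ∃ x : Fin s → ℕ, (∀ i, 0 < x i) ∧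
        ⌊∑ i, l i * (x i : ℝ) ^ k⌋₊ = n}.ncard : ℕ) : ℝ) :=
  Pool.Agent.R532.Wa.exact_count k s hs hsk

end Pool.Agent.Results.MP_4e3e45_nt.GenericFewTerms
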